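import Mathlib

set_option autoImplicit false

namespace Pool.Agent.Helper34.Paint

variable {V : Type} [Fintype V] [DecidableEq V]

/-- `Forces G t k`: in the game on `G` in which every vertex may be presented `t` times (that is,
with `t - 1` erasers per vertex), Mrs. Correct can force at least `k` coloured vertices. -/
def Forces (G : SimpleGraph V) (t k : ℕ) : Prop :=
  ∀ W : (V → ℕ) → ℕ → Prop,
    (∀ (f : V → ℕ) (c : ℕ),
      (((∀ v, f v = 0) ∧ k ≤ c) ∨
        ((∃ v, f v ≠ 0) ∧
          ∀ U : Finset V, U.Nonempty → (∀ v ∈ U, f v ≠ 0) →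
            ∃ C : Finset V, C ⊆ U ∧ G.IsIndepSet (C : Set V) ∧
              W (fun v => if v ∈ C then 0 else if v ∈ U then f v - 1 else f v)
                (c + C.card))) → W f c) →
    W (fun _ => t) 0

/-- `G` is `s`-paintable. -/
def Paintable (G : SimpleGraph V) (s : ℕ) : Prop := Forces G s (Fintype.card V)

end Pool.Agent.Helper34.Paint
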