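import Mathlib
import Pool.Agent.Helper34.Paint.Defs

set_option autoImplicit false

namespace Pool.Agent.Helper34.Paint

open Finset

variable {V : Type} [Fintype V] [DecidableEq V]

/-- The position after a round in which `U` is presented and `C` is coloured. -/
def step (f : V → ℕ) (U C : Finset V) : V → ℕ :=
  fun v => if v ∈ C then 0 else if v ∈ U then f v - 1 else f v

theorem step_sum_lt (f : V → ℕ) (U C : Finset V) (hU : U.Nonempty) (hf : ∀ v ∈ U, f v ≠ 0) :
    ∑ v, step f U C v < ∑ v, f v := by
  obtain ⟨u, hu⟩ := hU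
  apply Finset.sum_lt_sum
  · intro v _
    unfold step
    split_ifs <;> omega
  · refine ⟨u, mem_univ _, ?_⟩
    have := hf u hu
    unfold step
    split_ifs <;> omega

open Classical in
/-- The value of the game from the position `f`. -/
noncomputable def val (G : SimpleGraph V) (f : V → ℕ) : ℕ :=
  if h : (univ.filter (fun U : Finset V => U.Nonempty ∧ ∀ v ∈ U, f v ≠ 0)).attach.Nonempty then
    (univ.filter (fun U : Finset V => U.Nonempty ∧ ∀ v ∈ U, f v ≠ 0)).attach.inf' h
      (fun U => (univ.filter (fun C : Finset V => C ⊆ U.1 ∧ G.IsIndepSet (C : Set V))).sup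
        (fun C => C.card + val G (step f U.1 C)))
  else 0
termination_by ∑ v, f v
decreasing_by
  have h := U.2
  simp only [mem_filter, mem_univ, true_and] at h
  exact step_sum_lt f U.1 C h.1 h.2

theorem val_zero (G : SimpleGraph V) (f : V → ℕ) (hf : ∀ v, f v = 0) : val G f = 0 := by
  rw [val, dif_neg]
  rintro ⟨⟨U, hU⟩, -⟩
  simp only [mem_filter, mem_univ, true_and] at hU
  obtain ⟨u, hu⟩ := hU.1
  exact hU.2 u hu (hf u)

theorem val_reply (G : SimpleGraph V) (f : V → ℕ) (U : Finset V) (hU : U.Nonempty)
    (hf : ∀ v ∈ U, f v ≠ 0) :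
    ∃ C : Finset V, C ⊆ U ∧ G.IsIndepSet (C : Set V) ∧ val G f ≤ C.card + val G (step f U C) := by
  classical
  have hmem : U ∈ univ.filter (fun U : Finset V => U.Nonempty ∧ ∀ v ∈ U, f v ≠ 0) := by
    simp only [mem_filter, mem_univ, true_and]
    exact ⟨hU, hf⟩
  have hne : (univ.filter (fun U : Finset V => U.Nonempty ∧ ∀ v ∈ U, f v ≠ 0)).attach.Nonempty :=
    ⟨⟨U, hmem⟩, mem_attach _ _⟩
  have hcn : (univ.filter (fun C : Finset V => C ⊆ U ∧ G.IsIndepSet (C : Set V))).Nonempty := by
    refine ⟨∅, ?_⟩
    simp
  obtain ⟨C, hC, hCe⟩ := exists_mem_eq_sup _ hcn (fun C => C.card + val G (step f U C))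
  simp only [mem_filter, mem_univ, true_and] at hC
  refine ⟨C, hC.1, hC.2, ?_⟩
  rw [← hCe]
  conv_lhs => rw [val]
  rw [dif_pos hne]
  refine (inf'_le _ (mem_attach _ ⟨U, hmem⟩)).trans ?_
  exact le_of_eq (by congr)

theorem val_offer (G : SimpleGraph V) (f : V → ℕ) (hf : ∃ v, f v ≠ 0) :
    ∃ U : Finset V, U.Nonempty ∧ (∀ v ∈ U, f v ≠ 0) ∧
      ∀ C : Finset V, C ⊆ U → G.IsIndepSet (C : Set V) →
        C.card + val G (step f U C) ≤ val G f := by
  classical
  obtain ⟨v, hv⟩ := hf
  have hmem : {v} ∈ univ.filter (fun U : Finset V => U.Nonempty ∧ ∀ v ∈ U, f v ≠ 0) := by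
    simp only [mem_filter, mem_univ, true_and]
    refine ⟨singleton_nonempty v, ?_⟩
    simpa using hv
  have hne : (univ.filter (fun U : Finset V => U.Nonempty ∧ ∀ v ∈ U, f v ≠ 0)).attach.Nonempty :=
    ⟨⟨{v}, hmem⟩, mem_attach _ _⟩
  obtain ⟨U, hU, hUe⟩ := exists_mem_eq_inf' hne
    (fun U => (univ.filter (fun C : Finset V => C ⊆ U.1 ∧ G.IsIndepSet (C : Set V))).sup
        (fun C => C.card + val G (step f U.1 C)))
  have hU' := U.2
  simp only [mem_filter, mem_univ, true_and] at hU'
  refine ⟨U.1, hU'.1, hU'.2, ?_⟩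
  intro C hC hCi
  have h1 : val G f = (univ.filter (fun C : Finset V => C ⊆ U.1 ∧ G.IsIndepSet (C : Set V))).sup
        (fun C => C.card + val G (step f U.1 C)) := by
    rw [← hUe]
    conv_lhs => rw [val]
    rw [dif_pos hne]
  rw [h1]
  apply le_sup (f := fun C => C.card + val G (step f U.1 C))
  simp only [mem_filter, mem_univ, true_and]
  exact ⟨hC, hCi⟩

theorem forces_iff (G : SimpleGraph V) (t k : ℕ) : Forces G t k ↔ k ≤ val G (fun _ => t) := by
  constructor
  · intro h
    have := h (fun f c => k ≤ c + val G f) ?_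
    · simpa using this
    · intro f c hfc
      rcases hfc with ⟨h0, hk⟩ | ⟨h1, h2⟩
      · exact hk.trans (Nat.le_add_right _ _)
      · obtain ⟨U, hU, hUf, hUC⟩ := val_offer G f h1
        obtain ⟨C, hC, hCi, hW⟩ := h2 U hU hUf
        have := hUC C hC hCi
        have hW' : k ≤ c + C.card + val G (step f U C) := hW
        show k ≤ c + val G f
        omega
  · intro h W hW
    have key : ∀ N : ℕ, ∀ (f : V → ℕ) (c : ℕ), ∑ v, f v ≤ N → k ≤ c + val G f → W f c := by
      intro N
      induction N with
      | zero =>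
        intro f c hN hk
        have h0 : ∀ v, f v = 0 := by
          intro v
          have : f v ≤ ∑ v, f v := single_le_sum (f := f) (fun _ _ => Nat.zero_le _) (mem_univ v)
          omega
        apply hW
        left
        refine ⟨h0, ?_⟩
        rw [val_zero G f h0] at hk
        simpa using hk
      | succ N ih =>
        intro f c hN hk
        apply hW
        by_cases h0 : ∀ v, f v = 0
        · left
          refine ⟨h0, ?_⟩
          rw [val_zero G f h0] at hk
          simpa using hk
        · right
          push Not at h0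
          refine ⟨h0, ?_⟩
          intro U hU hUf
          obtain ⟨C, hC, hCi, hCv⟩ := val_reply G f U hU hUf
          refine ⟨C, hC, hCi, ?_⟩
          apply ih (step f U C) (c + C.card)
          · have := step_sum_lt f U C hU hUf
            omega
          · omega
    exact key _ _ 0 le_rfl (by simpa using h)

theorem val_mono (G : SimpleGraph V) : ∀ (N : ℕ) (g h : V → ℕ), ∑ v, h v ≤ N → (∀ v, g v ≤ h v) →
    val G g ≤ val G h := by
  intro N
  induction N with
  | zero =>
    intro g h hN hgh
    have h0 : ∀ v, g v = 0 := by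
      intro v
      have h1 : h v ≤ ∑ v, h v := single_le_sum (f := h) (fun _ _ => Nat.zero_le _) (mem_univ v)
      have := hgh v
      omega
    rw [val_zero G g h0]
    exact Nat.zero_le _
  | succ N ih =>
    intro g h hN hgh
    by_cases h0 : ∀ v, h v = 0
    · have h0' : ∀ v, g v = 0 := by
        intro v
        have := hgh v
        have := h0 v
        omega
      rw [val_zero G g h0']
      exact Nat.zero_le _
    · push Not at h0
      obtain ⟨U, hU, hUf, hUC⟩ := val_offer G h h0
      have hlt : ∀ C, ∑ v, step h U C v ≤ N := by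
        intro C
        have := step_sum_lt h U C hU hUf
        omega
      by_cases hU' : (U.filter (fun v => g v ≠ 0)).Nonempty
      · obtain ⟨C, hC, hCi, hCv⟩ := val_reply G g (U.filter (fun v => g v ≠ 0)) hU'
          (fun v hv => (mem_filter.1 hv).2)
        have h1 := hUC C (hC.trans (filter_subset _ _)) hCi
        have h2 := ih (step g (U.filter (fun v => g v ≠ 0)) C) (step h U C) (hlt C) (by
          intro v
          have := hgh v
          unfold step
          by_cases h3 : v ∈ C
          · simp [h3]
          · by_cases h4 : v ∈ U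
            · by_cases h5 : g v = 0
              · simp [h3, h4, h5]
              · simp only [h3, mem_filter, h4, ne_eq, h5, not_false_eq_true, and_self, if_true,
                  if_false]
                omega
            · simp only [h3, mem_filter, h4, false_and, if_false]
              omega)
        omega
      · rw [not_nonempty_iff_eq_empty, filter_eq_empty_iff] at hU'
        have h1 := hUC ∅ (empty_subset _) (by simp)
        have h2 := ih g (step h U ∅) (hlt ∅) (by
          intro v
          have := hgh v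
          unfold step
          by_cases h4 : v ∈ U
          · have := hU' h4
            simp only [notMem_empty, if_false, h4, if_true]
            omega
          · simp only [notMem_empty, if_false, h4]
            omega)
        simp only [card_empty, zero_add] at h1
        omega

theorem val_le_val (G : SimpleGraph V) {g h : V → ℕ} (hgh : ∀ v, g v ≤ h v) :
    val G g ≤ val G h := val_mono G _ g h le_rfl hgh

theorem val_add_aux (G : SimpleGraph V) : ∀ (N : ℕ) (f g : V → ℕ), ∑ v, f v ≤ N →
    val G (fun v => f v + g v) ≤ val G f + val G g := by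
  intro N
  induction N with
  | zero =>
    intro f g hN
    have h0 : ∀ v, f v = 0 := by
      intro v
      have h1 : f v ≤ ∑ v, f v := single_le_sum (f := f) (fun _ _ => Nat.zero_le _) (mem_univ v)
      omega
    have : val G (fun v => f v + g v) ≤ val G g := val_le_val G (fun v => by simp [h0 v])
    omega
  | succ N ih =>
    intro f g hN
    by_cases h0 : ∀ v, f v = 0
    · have : val G (fun v => f v + g v) ≤ val G g := val_le_val G (fun v => by simp [h0 v])
      omega
    · push Not at h0
      obtain ⟨U, hU, hUf, hUC⟩ := val_offer G f h0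
      obtain ⟨C, hC, hCi, hCv⟩ := val_reply G (fun v => f v + g v) U hU
        (fun v hv => by have := hUf v hv; show f v + g v ≠ 0; omega)
      have h1 := hUC C hC hCi
      have h2 : val G (step (fun v => f v + g v) U C) ≤ val G (fun v => step f U C v + g v) := by
        apply val_le_val
        intro v
        unfold step
        by_cases h3 : v ∈ C
        · simp [h3]
        · by_cases h4 : v ∈ U
          · have := hUf v h4
            simp only [h3, h4, if_true, if_false]
            omega
          · simp only [h3, h4, if_false]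
            omega
      have h3 := ih (step f U C) g (by
        have := step_sum_lt f U C hU hUf
        omega)
      omega

theorem val_add (G : SimpleGraph V) (f g : V → ℕ) :
    val G (fun v => f v + g v) ≤ val G f + val G g := val_add_aux G _ f g le_rfl

/-- The number of vertices which may still be presented. -/
def sup (f : V → ℕ) : Finset V := univ.filter (fun v => f v ≠ 0)

omit [DecidableEq V] in
theorem mem_sup {f : V → ℕ} {v : V} : v ∈ sup f ↔ f v ≠ 0 := by
  simp [sup]

theorem sup_step (f : V → ℕ) (U C : Finset V) : sup (step f U C) ⊆ sup f \ C := by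
  intro v
  rw [mem_sdiff, mem_sup, mem_sup]
  unfold step
  by_cases h3 : v ∈ C
  · simp [h3]
  · by_cases h4 : v ∈ U
    · simp only [h3, h4, if_true, if_false]
      intro h
      exact ⟨by omega, not_false⟩
    · simp only [h3, h4, if_false]
      intro h
      exact ⟨by omega, not_false⟩

theorem val_le_card (G : SimpleGraph V) : ∀ (N : ℕ) (f : V → ℕ), ∑ v, f v ≤ N →
    val G f ≤ (sup f).card := by
  intro N
  induction N with
  | zero =>
    intro f hN
    have h0 : ∀ v, f v = 0 := by
      intro v
      have h1 : f v ≤ ∑ v, f v := single_le_sum (f := f) (fun _ _ => Nat.zero_le _) (mem_univ v)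
      omega
    rw [val_zero G f h0]
    exact Nat.zero_le _
  | succ N ih =>
    intro f hN
    by_cases h0 : ∀ v, f v = 0
    · rw [val_zero G f h0]
      exact Nat.zero_le _
    · push Not at h0
      obtain ⟨u, hu⟩ := h0
      have hne : (sup f).Nonempty := ⟨u, mem_sup.2 hu⟩
      obtain ⟨C, hC, hCi, hCv⟩ := val_reply G f (sup f) hne (fun v hv => mem_sup.1 hv)
      have h1 := ih (step f (sup f) C) (by
        have := step_sum_lt f (sup f) C hne (fun v hv => mem_sup.1 hv)
        omega)
      have h2 := card_le_card (sup_step f (sup f) C)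
      rw [card_sdiff_of_subset hC] at h2
      have h3 := card_le_card hC
      omega

theorem val_le_sup (G : SimpleGraph V) (f : V → ℕ) : val G f ≤ (sup f).card :=
  val_le_card G _ f le_rfl

/-- Positions from which Mrs. Correct can have all remaining vertices coloured. -/
def Full (G : SimpleGraph V) (f : V → ℕ) : Prop := (sup f).card ≤ val G f

theorem Full.reply {G : SimpleGraph V} {f : V → ℕ} (hf : Full G f) (U : Finset V)
    (hU : U ⊆ sup f) :
    ∃ C : Finset V, C ⊆ U ∧ G.IsIndepSet (C : Set V) ∧ Full G (step f U C) ∧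
      (sup (step f U C)).card + C.card = (sup f).card := by
  by_cases hUn : U.Nonempty
  · obtain ⟨C, hC, hCi, hCv⟩ := val_reply G f U hUn (fun v hv => mem_sup.1 (hU hv))
    have h1 := val_le_sup G (step f U C)
    have h2 := card_le_card (sup_step f U C)
    rw [card_sdiff_of_subset (hC.trans hU)] at h2
    have h3 := card_le_card (hC.trans hU)
    unfold Full at hf
    refine ⟨C, hC, hCi, ?_, ?_⟩
    · unfold Full
      omega
    · omega
  · rw [not_nonempty_iff_eq_empty] at hUn
    subst hUn
    have : step f ∅ ∅ = f := by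
      funext v
      simp [step]
    refine ⟨∅, subset_refl _, by simp, ?_, ?_⟩
    · rw [this]
      exact hf
    · rw [this]
      simp

theorem Full.zero (G : SimpleGraph V) {f : V → ℕ} (hf : ∀ v, f v = 0) : Full G f := by
  unfold Full
  have : sup f = ∅ := by
    ext v
    simp [mem_sup, hf v]
  rw [this]
  simp

/-- The mixed reply: follow the strategy for the vertices with `r ≤ c v` with weight `1 - r q`,
colour the presented vertices of the `j`-th class, `j < r`, with weight `q` each. -/
theorem val_mixed (G : SimpleGraph V) (r : ℕ) (c : V → ℕ)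
    (hc : ∀ v w, c v = c w → c v < r → ¬ G.Adj v w) (q : ℝ) (hq : 0 ≤ q)
    (hA : 0 ≤ 1 - (r : ℝ) * q) :
    ∀ (N : ℕ) (g : V → ℕ), ∑ v, g v ≤ N → Full G (fun v => if c v < r then 0 else g v) →
    (1 - (r : ℝ) * q) * ((sup (fun v => if c v < r then 0 else g v)).card : ℝ) +
      ∑ v, (if c v < r then 1 - (1 - q) ^ (g v) else 0) ≤ (val G g : ℝ) := by
  intro N
  have hzero : ∀ g : V → ℕ, (∀ v, g v = 0) →
      (1 - (r : ℝ) * q) * ((sup (fun v => if c v < r then 0 else g v)).card : ℝ) +
      ∑ v, (if c v < r then 1 - (1 - q) ^ (g v) else 0) ≤ (val G g : ℝ) := by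
    intro g h0
    have h1 : sup (fun v => if c v < r then 0 else g v) = ∅ := by
      ext v
      simp [mem_sup, h0 v]
    rw [h1, val_zero G g h0]
    simp [h0]
  induction N with
  | zero =>
    intro g hN hF
    apply hzero
    intro v
    have h1 : g v ≤ ∑ v, g v := single_le_sum (f := g) (fun _ _ => Nat.zero_le _) (mem_univ v)
    omega
  | succ N ih =>
    intro g hN hF
    by_cases h0 : ∀ v, g v = 0
    · exact hzero g h0
    push Not at h0
    obtain ⟨U, hU, hUf, hUC⟩ := val_offer G g h0
    obtain ⟨h, hh⟩ : ∃ h : V → ℕ, h = fun v => if c v < r then 0 else g v := ⟨_, rfl⟩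
    obtain ⟨Y, hY⟩ : ∃ Y : Finset V, Y = U.filter (fun v => r ≤ c v) := ⟨_, rfl⟩
    have hYmem : ∀ v, v ∈ Y ↔ v ∈ U ∧ r ≤ c v := by
      intro v
      rw [hY, mem_filter]
    have hYs : Y ⊆ sup h := by
      intro v hv
      rw [hYmem] at hv
      rw [mem_sup, hh]
      have := hUf v hv.1
      have h1 : ¬ c v < r := by omega
      simpa [h1] using this
    rw [← hh] at hF ⊢
    obtain ⟨C₀, hC₀, hC₀i, hC₀F, hC₀c⟩ := hF.reply Y hYs
    have hC₀r : ∀ v ∈ C₀, r ≤ c v := fun v hv => ((hYmem v).1 (hC₀ hv)).2
    have hC₀U : C₀ ⊆ U := fun v hv => ((hYmem v).1 (hC₀ hv)).1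
    have hlow : ∀ D : Finset V, (∀ v ∈ D, c v < r) →
        (fun v => if c v < r then 0 else step g U (D ∪ C₀) v) = step h Y C₀ := by
      intro D hD
      funext v
      unfold step
      by_cases h1 : c v < r
      · have h2 : v ∉ C₀ := fun h => by have := hC₀r v h; omega
        have h3 : v ∉ Y := fun h => by have := ((hYmem v).1 h).2; omega
        simp [h1, h2, h3, hh]
      · have h2 : v ∉ D := fun h => h1 (hD v h)
        by_cases h3 : v ∈ C₀
        · simp [h3]
        · by_cases h4 : v ∈ U
          · have h5 : v ∈ Y := (hYmem v).2 ⟨h4, by omega⟩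
            simp [h1, h2, h3, h4, h5, hh]
          · have h5 : v ∉ Y := fun h => h4 ((hYmem v).1 h).1
            simp [h1, h2, h3, h4, h5, hh]
    have hcard : ((sup (step h Y C₀)).card : ℝ) + (C₀.card : ℝ) = ((sup h).card : ℝ) := by
      exact_mod_cast hC₀c
    have hopt : ∀ D : Finset V, (∀ v ∈ D, c v < r) →
        (1 - (r : ℝ) * q) * (((sup h).card : ℝ) - (C₀.card : ℝ)) +
          ∑ v, (if c v < r then 1 - (1 - q) ^ (step g U (D ∪ C₀) v) else 0) ≤
          (val G (step g U (D ∪ C₀)) : ℝ) := by
      intro D hD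
      have h1 := ih (step g U (D ∪ C₀)) (by
        have := step_sum_lt g U (D ∪ C₀) hU hUf
        omega) (by
        rw [hlow D hD]
        exact hC₀F)
      rw [hlow D hD] at h1
      have h2 : ((sup h).card : ℝ) - (C₀.card : ℝ) = ((sup (step h Y C₀)).card : ℝ) := by
        linarith
      rw [h2]
      exact h1
    -- option 0
    have hopt0 : (C₀.card : ℝ) + ((1 - (r : ℝ) * q) * (((sup h).card : ℝ) - (C₀.card : ℝ)) +
          ∑ v, (if c v < r then 1 - (1 - q) ^ (step g U (∅ ∪ C₀) v) else 0)) ≤
          (val G g : ℝ) := by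
      have h1 := hopt ∅ (by simp)
      have h2 := hUC C₀ hC₀U hC₀i
      rw [empty_union] at h1 ⊢
      have h3 : (C₀.card : ℝ) + (val G (step g U C₀) : ℝ) ≤ (val G g : ℝ) := by
        exact_mod_cast h2
      linarith
    -- option j
    have hoptj : ∀ j < r, ((U.filter (fun v => c v = j)).card : ℝ) +
          ((1 - (r : ℝ) * q) * (((sup h).card : ℝ) - (C₀.card : ℝ)) +
          ∑ v, (if c v < r then 1 - (1 - q) ^ (step g U (U.filter (fun v => c v = j) ∪ C₀) v)
            else 0)) ≤ (val G g : ℝ) := by
      intro j hj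
      have h1 := hopt (U.filter (fun v => c v = j)) (by
        intro v hv
        rw [mem_filter] at hv
        omega)
      have h2 := hUC (U.filter (fun v => c v = j)) (filter_subset _ _) (by
        intro v hv w hw _
        simp only [coe_filter, Set.mem_ofPred_eq] at hv hw
        exact hc v w (by rw [hv.2, hw.2]) (by omega))
      have h3 : val G (step g U (U.filter (fun v => c v = j) ∪ C₀)) ≤
          val G (step g U (U.filter (fun v => c v = j))) := by
        apply val_le_val
        intro v
        unfold step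
        by_cases h4 : v ∈ U.filter (fun v => c v = j)
        · simp only [mem_union, h4, true_or, if_true, le_refl]
        · by_cases h5 : v ∈ C₀
          · simp only [mem_union, h5, or_true, if_true, Nat.zero_le]
          · simp only [mem_union, h4, h5, or_self, if_false, le_refl]
      have h4 : ((U.filter (fun v => c v = j)).card : ℝ) +
          (val G (step g U (U.filter (fun v => c v = j))) : ℝ) ≤ (val G g : ℝ) := by
        exact_mod_cast h2
      have h5 : (val G (step g U (U.filter (fun v => c v = j) ∪ C₀)) : ℝ) ≤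
          (val G (step g U (U.filter (fun v => c v = j))) : ℝ) := by
        exact_mod_cast h3
      linarith
    -- averaging
    have hpt : ∀ v, (if c v < r then 1 - (1 - q) ^ (g v) else 0) =
        (1 - (r : ℝ) * q) * (if c v < r then 1 - (1 - q) ^ (step g U (∅ ∪ C₀) v) else 0) +
        ∑ j ∈ range r, q * ((if v ∈ U.filter (fun v => c v = j) then (1 : ℝ) else 0) +
          (if c v < r then 1 - (1 - q) ^ (step g U (U.filter (fun v => c v = j) ∪ C₀) v)
            else 0)) := by
      intro v
      by_cases h1 : c v < r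
      · have h2 : v ∉ C₀ := fun h => by have := hC₀r v h; omega
        by_cases h3 : v ∈ U
        · have hgv := hUf v h3
          have h4 : step g U (∅ ∪ C₀) v = g v - 1 := by
            unfold step
            simp [h2, h3]
          have h5 : ∀ j ∈ range r,
              q * ((if v ∈ U.filter (fun v => c v = j) then (1 : ℝ) else 0) +
              (if c v < r then 1 - (1 - q) ^ (step g U (U.filter (fun v => c v = j) ∪ C₀) v)
              else 0)) = q * (1 - (1 - q) ^ (g v - 1)) +
                (if j = c v then q * (1 - q) ^ (g v - 1) else 0) := by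
            intro j _
            by_cases h6 : j = c v
            · have h7 : step g U (U.filter (fun v => c v = j) ∪ C₀) v = 0 := by
                unfold step
                simp [h2, h3, h6]
              have h8 : v ∈ U.filter (fun v => c v = j) := by
                simp [h3, h6]
              rw [h7, if_pos h8, if_pos h1, if_pos h6]
              ring
            · have h8 : v ∉ U.filter (fun v => c v = j) := by
                rw [mem_filter]
                intro h
                exact h6 h.2.symm
              have h7 : step g U (U.filter (fun v => c v = j) ∪ C₀) v = g v - 1 := by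
                unfold step
                simp only [mem_union, h8, h2, or_self, if_false, h3, if_true]
              rw [h7, if_neg h8, if_pos h1, if_neg h6]
              ring
          rw [sum_congr rfl h5, sum_add_distrib, sum_const, card_range, sum_ite_eq',
            if_pos (mem_range.2 h1), if_pos h1, if_pos h1, h4, nsmul_eq_mul]
          obtain ⟨m, hm⟩ : ∃ m, g v = m + 1 := ⟨g v - 1, by omega⟩
          rw [hm, Nat.add_sub_cancel]
          ring
        · have h4 : step g U (∅ ∪ C₀) v = g v := by
            unfold step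
            simp [h2, h3]
          have h5 : ∀ j ∈ range r,
              q * ((if v ∈ U.filter (fun v => c v = j) then (1 : ℝ) else 0) +
              (if c v < r then 1 - (1 - q) ^ (step g U (U.filter (fun v => c v = j) ∪ C₀) v)
              else 0)) = q * (1 - (1 - q) ^ (g v)) := by
            intro j _
            have h8 : v ∉ U.filter (fun v => c v = j) := by
              rw [mem_filter]
              intro h
              exact h3 h.1
            have h7 : step g U (U.filter (fun v => c v = j) ∪ C₀) v = g v := by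
              unfold step
              simp only [mem_union, h8, h2, or_self, if_false, h3]
            rw [h7, if_neg h8, if_pos h1]
            ring
          rw [sum_congr rfl h5, sum_const, card_range, if_pos h1, if_pos h1, h4, nsmul_eq_mul]
          ring
      · have h5 : ∀ j ∈ range r,
              q * ((if v ∈ U.filter (fun v => c v = j) then (1 : ℝ) else 0) +
              (if c v < r then 1 - (1 - q) ^ (step g U (U.filter (fun v => c v = j) ∪ C₀) v)
              else 0)) = 0 := by
          intro j hj
          have h8 : v ∉ U.filter (fun v => c v = j) := by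
            rw [mem_filter]
            intro h
            rw [mem_range] at hj
            omega
          rw [if_neg h8, if_neg h1]
          ring
        rw [sum_congr rfl h5, if_neg h1, if_neg h1]
        simp
    have hsum : ∑ v, (if c v < r then 1 - (1 - q) ^ (g v) else 0) =
        (1 - (r : ℝ) * q) * ∑ v, (if c v < r then 1 - (1 - q) ^ (step g U (∅ ∪ C₀) v) else 0) +
        ∑ j ∈ range r, q * (((U.filter (fun v => c v = j)).card : ℝ) +
          ∑ v, (if c v < r then 1 - (1 - q) ^ (step g U (U.filter (fun v => c v = j) ∪ C₀) v)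
            else 0)) := by
      rw [sum_congr rfl (fun v _ => hpt v), sum_add_distrib, mul_sum, sum_comm]
      congr 1
      apply sum_congr rfl
      intro j _
      rw [← mul_sum, sum_add_distrib]
      congr 2
      rw [sum_ite_mem, univ_inter, sum_const, nsmul_eq_mul, mul_one]
    have hav : ∑ j ∈ range r, q * (((U.filter (fun v => c v = j)).card : ℝ) +
          ((1 - (r : ℝ) * q) * (((sup h).card : ℝ) - (C₀.card : ℝ)) +
          ∑ v, (if c v < r then 1 - (1 - q) ^ (step g U (U.filter (fun v => c v = j) ∪ C₀) v)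
            else 0))) ≤ ∑ j ∈ range r, q * (val G g : ℝ) := by
      apply sum_le_sum
      intro j hj
      exact mul_le_mul_of_nonneg_left (hoptj j (mem_range.1 hj)) hq
    have h0' := mul_le_mul_of_nonneg_left hopt0 hA
    rw [hsum]
    rw [sum_const, card_range, nsmul_eq_mul] at hav
    have hsplit : ∑ j ∈ range r, q * (((U.filter (fun v => c v = j)).card : ℝ) +
          ((1 - (r : ℝ) * q) * (((sup h).card : ℝ) - (C₀.card : ℝ)) +
          ∑ v, (if c v < r then 1 - (1 - q) ^ (step g U (U.filter (fun v => c v = j) ∪ C₀) v)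
            else 0))) = ∑ j ∈ range r, q * (((U.filter (fun v => c v = j)).card : ℝ) +
          ∑ v, (if c v < r then 1 - (1 - q) ^ (step g U (U.filter (fun v => c v = j) ∪ C₀) v)
            else 0)) + (r : ℝ) * q * ((1 - (r : ℝ) * q) * (((sup h).card : ℝ) - (C₀.card : ℝ))) := by
      rw [show (r : ℝ) * q * ((1 - (r : ℝ) * q) * (((sup h).card : ℝ) - (C₀.card : ℝ))) =
        ∑ j ∈ range r, q * ((1 - (r : ℝ) * q) * (((sup h).card : ℝ) - (C₀.card : ℝ))) by
        rw [sum_const, card_range, nsmul_eq_mul]; ring]
      rw [← sum_add_distrib]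
      apply sum_congr rfl
      intro j _
      ring
    rw [hsplit] at hav
    nlinarith [h0', hav]

theorem log_sub_le (z : ℝ) (h0 : 0 ≤ z) (h1 : z < 1) :
    Real.log (1 + z) - Real.log (1 - z) ≤
      2 * z + 2 / 3 * z ^ 3 + 2 / 5 * z ^ 5 * (1 - z ^ 2)⁻¹ := by
  have hz : |z| < 1 := by rw [abs_of_nonneg h0]; exact h1
  have hs := Real.hasSum_log_sub_log_of_abs_lt_one hz
  have hz2 : z ^ 2 < 1 := by nlinarith
  have hg := (hasSum_geometric_of_lt_one (sq_nonneg z) hz2).mul_left (2 / 5 * z ^ 5)
  have hs2 := (hasSum_nat_add_iff' 2).2 hs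
  have hle := hasSum_le (fun k => ?_) hs2 hg
  · simp only [sum_range_succ, range_zero, sum_empty] at hle
    norm_num at hle
    linarith
  · have hk : (0 : ℝ) ≤ (k : ℝ) := Nat.cast_nonneg k
    have e1 : z ^ (2 * (k + 2) + 1) = z ^ 5 * (z ^ 2) ^ k := by
      rw [← pow_mul, ← pow_add]
      congr 1
      ring
    rw [e1]
    have h3 : (0 : ℝ) ≤ z ^ 5 * (z ^ 2) ^ k := by positivity
    have h4 : (2 : ℝ) * (1 / (2 * ((k + 2 : ℕ) : ℝ) + 1)) ≤ 2 / 5 := by
      push_cast
      rw [mul_one_div, div_le_div_iff₀ (by positivity) (by norm_num)]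
      nlinarith
    calc (2 : ℝ) * (1 / (2 * ((k + 2 : ℕ) : ℝ) + 1)) * (z ^ 5 * (z ^ 2) ^ k)
        ≤ 2 / 5 * (z ^ 5 * (z ^ 2) ^ k) := mul_le_mul_of_nonneg_right h4 h3
      _ = 2 / 5 * z ^ 5 * (z ^ 2) ^ k := by ring

theorem neg_log_le (y : ℝ) (h0 : 1 / 7 < y) (h1 : y ≤ 1) :
    - Real.log y ≤ 7 * y * (1 - y) / (7 * y - 1) := by
  have hy : 0 < y := by linarith
  have hy1 : 0 < 1 + y := by linarith
  have hz := log_sub_le ((1 - y) / (1 + y)) (by
    apply div_nonneg <;> linarith) (by
    rw [div_lt_one hy1]
    linarith)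
  have e1 : 1 + (1 - y) / (1 + y) = 2 / (1 + y) := by field_simp; ring
  have e2 : 1 - (1 - y) / (1 + y) = 2 * y / (1 + y) := by field_simp; ring
  rw [e1, e2, Real.log_div (by norm_num) hy1.ne', Real.log_div (by positivity) hy1.ne',
    Real.log_mul (by norm_num) hy.ne'] at hz
  have e3 : (1 - ((1 - y) / (1 + y)) ^ 2)⁻¹ = (1 + y) ^ 2 / (4 * y) := by
    have : 1 - ((1 - y) / (1 + y)) ^ 2 = 4 * y / (1 + y) ^ 2 := by
      field_simp
      ring
    rw [this, inv_div]
  rw [e3] at hz
  have h7 : 0 < 7 * y - 1 := by linarith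
  have hP : 0 ≤ 3 + 47 * y - 168 * y ^ 2 + 12 * y ^ 3 + 157 * y ^ 4 + 189 * y ^ 5 := by
    nlinarith [mul_nonneg hy.le (sq_nonneg (y - 9 / 20)), sq_nonneg (y - 9 / 20),
      mul_nonneg hy.le (sq_nonneg (y ^ 2 - 81 / 400)), sq_nonneg (y ^ 2 - 81 / 400),
      sq_nonneg (y * (y - 9 / 20)), mul_nonneg hy.le (sq_nonneg (y * (y - 9 / 20)))]
  have key : 2 * ((1 - y) / (1 + y)) + 2 / 3 * ((1 - y) / (1 + y)) ^ 3 +
      2 / 5 * ((1 - y) / (1 + y)) ^ 5 * ((1 + y) ^ 2 / (4 * y)) ≤
      7 * y * (1 - y) / (7 * y - 1) := by
    have e4 : 7 * y * (1 - y) / (7 * y - 1) - (2 * ((1 - y) / (1 + y)) +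
      2 / 3 * ((1 - y) / (1 + y)) ^ 3 +
      2 / 5 * ((1 - y) / (1 + y)) ^ 5 * ((1 + y) ^ 2 / (4 * y))) =
      (1 - y) * (3 + 47 * y - 168 * y ^ 2 + 12 * y ^ 3 + 157 * y ^ 4 + 189 * y ^ 5) /
        (30 * y * (1 + y) ^ 3 * (7 * y - 1)) := by
      field_simp
      ring
    have h5 : 0 ≤ (1 - y) * (3 + 47 * y - 168 * y ^ 2 + 12 * y ^ 3 + 157 * y ^ 4 + 189 * y ^ 5) /
        (30 * y * (1 + y) ^ 3 * (7 * y - 1)) := by
      apply div_nonneg
      · exact mul_nonneg (by linarith) hP
      · positivity
    linarith
  linarith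

/-- The choice of `q`. -/
theorem choose_q (s t : ℕ) (ht : 1 ≤ t) (hts : t < s) :
    ∃ q : ℝ, 0 ≤ q ∧ 0 ≤ 1 - ((s - t : ℕ) : ℝ) * q ∧
      6 * (t : ℝ) / (7 * s) ≤ 1 - ((s - t : ℕ) : ℝ) * q ∧
      6 * (t : ℝ) / (7 * s) ≤ 1 - (1 - q) ^ t := by
  have ht' : (1 : ℝ) ≤ (t : ℝ) := by exact_mod_cast ht
  have hts' : (t : ℝ) + 1 ≤ (s : ℝ) := by exact_mod_cast hts
  have hs0 : (0 : ℝ) < (s : ℝ) := by linarith
  have hst : ((s - t : ℕ) : ℝ) = (s : ℝ) - (t : ℝ) := Nat.cast_sub hts.le
  rw [hst]
  have hd : (0 : ℝ) < (s : ℝ) - (t : ℝ) := by linarith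
  obtain ⟨T, hT⟩ : ∃ T : ℝ, T = 6 * (t : ℝ) / (7 * s) := ⟨_, rfl⟩
  rw [← hT]
  have hT0 : 0 ≤ T := by rw [hT]; positivity
  have hT1 : T < 6 / 7 := by
    rw [hT, div_lt_div_iff₀ (by positivity) (by norm_num)]
    nlinarith
  have hq1 : (1 - T) / ((s : ℝ) - t) ≤ 1 := by
    rw [div_le_one hd]
    linarith
  refine ⟨(1 - T) / ((s : ℝ) - t), div_nonneg (by linarith) hd.le, ?_, ?_, ?_⟩
  · rw [mul_div_cancel₀ _ hd.ne']
    linarith
  · rw [mul_div_cancel₀ _ hd.ne']
    linarith
  · have hlog := neg_log_le (1 - T) (by linarith) (by linarith)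
    have e1 : 7 * (1 - T) * (1 - (1 - T)) / (7 * (1 - T) - 1) =
        (1 - T) / ((s : ℝ) - t) * t := by
      have h6 : 7 * (1 - T) - 1 = 6 * ((s : ℝ) - t) / s := by
        rw [hT]
        field_simp
        ring
      rw [h6, hT]
      field_simp
      ring
    rw [e1] at hlog
    have h2 : (1 - (1 - T) / ((s : ℝ) - t)) ^ t ≤ Real.exp (-((1 - T) / ((s : ℝ) - t) * t)) := by
      have h3 : 1 - (1 - T) / ((s : ℝ) - t) ≤ Real.exp (-((1 - T) / ((s : ℝ) - t))) :=
        Real.one_sub_le_exp_neg _
      calc (1 - (1 - T) / ((s : ℝ) - t)) ^ t ≤ (Real.exp (-((1 - T) / ((s : ℝ) - t)))) ^ t :=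
            pow_le_pow_left₀ (by linarith) h3 t
        _ = Real.exp (-((1 - T) / ((s : ℝ) - t) * t)) := by
            rw [← Real.exp_nat_mul]
            congr 1
            ring
    have h4 : Real.exp (-((1 - T) / ((s : ℝ) - t) * t)) ≤ 1 - T := by
      calc Real.exp (-((1 - T) / ((s : ℝ) - t) * t)) ≤ Real.exp (Real.log (1 - T)) := by
            apply Real.exp_le_exp.2
            linarith
        _ = 1 - T := Real.exp_log (by linarith)
    linarith

/-- Extra presentations given away at the start: `r` disjoint independent sets. -/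
theorem pre_phase (G : SimpleGraph V) (s : ℕ) (hs : Full G (fun _ => s)) : ∀ r ≤ s,
    ∃ c : V → ℕ, (∀ v w, c v = c w → c v < r → ¬ G.Adj v w) ∧
      Full G (fun v => if c v < r then 0 else s - r) := by
  intro r
  induction r with
  | zero =>
    intro _
    refine ⟨fun _ => 0, fun v w _ h => absurd h (lt_irrefl 0), ?_⟩
    simpa using hs
  | succ r ih =>
    intro hr
    obtain ⟨c, hc, hF⟩ := ih (by omega)
    obtain ⟨C, hC, hCi, hCF, -⟩ := hF.reply _ (subset_refl _)
    have hCr : ∀ v ∈ C, ¬ c v < r := by
      intro v hv h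
      have := mem_sup.1 (hC hv)
      simp [h] at this
    refine ⟨fun v => if v ∈ C then r else if c v < r then c v else r + 1, ?_, ?_⟩
    · intro v w hvw hv hadj
      by_cases h1 : v ∈ C
      · by_cases h2 : w ∈ C
        · exact hCi (by exact_mod_cast h1) (by exact_mod_cast h2) hadj.ne hadj
        · by_cases h3 : c w < r
          · simp only [h1, h2, h3, if_true, if_false] at hvw
            omega
          · simp only [h1, h2, h3, if_true, if_false] at hvw
            omega
      · by_cases h4 : c v < r
        · by_cases h2 : w ∈ C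
          · simp only [h1, h2, h4, if_true, if_false] at hvw
            omega
          · by_cases h3 : c w < r
            · simp only [h1, h2, h3, h4, if_true, if_false] at hvw
              exact hc v w hvw h4 hadj
            · simp only [h1, h2, h3, h4, if_true, if_false] at hvw
              omega
        · simp only [h1, h4, if_false] at hv
          omega
    · have : (fun v => if (if v ∈ C then r else if c v < r then c v else r + 1) < r + 1 then 0
          else s - (r + 1)) = step (fun v => if c v < r then 0 else s - r)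
          (sup (fun v => if c v < r then 0 else s - r)) C := by
        funext v
        unfold step
        by_cases h1 : v ∈ C
        · simp [h1]
        · by_cases h2 : c v < r
          · have h3 : v ∉ sup (fun v => if c v < r then 0 else s - r) := by
              rw [mem_sup]
              simp [h2]
            have h4 : c v < r + 1 := by omega
            simp only [h1, h2, h3, h4, if_true, if_false]
          · have h3 : v ∈ sup (fun v => if c v < r then 0 else s - r) := by
              rw [mem_sup]
              simp only [h2, if_false]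
              omega
            simp only [h1, h2, h3, lt_irrefl, if_true, if_false]
            omega
      rw [this]
      exact hCF

omit [DecidableEq V] in
theorem card_le_mul_indepNum (G : SimpleGraph V) (r : ℕ) (c : V → ℕ)
    (hc : ∀ v w, c v = c w → c v < r → ¬ G.Adj v w) :
    (univ.filter (fun v => c v < r)).card ≤ r * G.indepNum := by
  classical
  have h1 : (univ.filter (fun v => c v < r)).card =
      ∑ j ∈ range r, ((univ.filter (fun v => c v < r)).filter (fun v => c v = j)).card := by
    apply card_eq_sum_card_fiberwise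
    intro v hv
    simp only [coe_filter, mem_univ, true_and, Set.mem_ofPred_eq] at hv
    simpa using hv
  rw [h1]
  calc ∑ j ∈ range r, ((univ.filter (fun v => c v < r)).filter (fun v => c v = j)).card
      ≤ ∑ j ∈ range r, G.indepNum := by
        apply sum_le_sum
        intro j _
        apply SimpleGraph.IsIndepSet.card_le_indepNum
        intro v hv w hw _
        simp only [coe_filter, mem_filter, mem_univ, true_and, Set.mem_ofPred_eq] at hv hw
        exact hc v w (by omega) hv.1
    _ = r * G.indepNum := by rw [sum_const, card_range, smul_eq_mul]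

theorem full_of_paintable (G : SimpleGraph V) (s : ℕ) (h : Paintable G s) :
    Full G (fun _ => s) := by
  unfold Paintable at h
  rw [forces_iff] at h
  unfold Full
  exact (card_le_univ _).trans h

/-- The general bound. -/
theorem general (G : SimpleGraph V) (s t : ℕ) (h : Paintable G s) (ht : 1 ≤ t) (hts : t ≤ s) :
    ∃ m : ℕ, m ≤ Fintype.card V ∧ m ≤ (s - t) * G.indepNum ∧
      ∀ q : ℝ, 0 ≤ q → ((s - t : ℕ) : ℝ) * q ≤ 1 →
        (1 - ((s - t : ℕ) : ℝ) * q) * ((Fintype.card V : ℝ) - (m : ℝ)) +
          (1 - (1 - q) ^ t) * (m : ℝ) ≤ (val G (fun _ => t) : ℝ) := by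
  obtain ⟨c, hc, hF⟩ := pre_phase G s (full_of_paintable G s h) (s - t) (by omega)
  refine ⟨(univ.filter (fun v => c v < s - t)).card, card_le_univ _,
    card_le_mul_indepNum G (s - t) c hc, ?_⟩
  intro q hq hq1
  have hst : s - (s - t) = t := by omega
  rw [hst] at hF
  have := val_mixed G (s - t) c hc q hq (by linarith) _ (fun _ => t) le_rfl hF
  have h1 : sup (fun v => if c v < s - t then 0 else t) = univ.filter (fun v => ¬ c v < s - t) := by
    ext v
    rw [mem_sup, mem_filter]
    by_cases h : c v < s - t
    · simp [h]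
    · simp only [h, if_false, mem_univ, not_false_eq_true, and_self, iff_true]
      omega
  have h2 : (univ.filter (fun v => c v < s - t)).card +
      (univ.filter (fun v => ¬ c v < s - t)).card = Fintype.card V := by
    rw [card_filter_add_card_filter_not, card_univ]
  have h3 : ((univ.filter (fun v => c v < s - t)).card : ℝ) +
      ((univ.filter (fun v => ¬ c v < s - t)).card : ℝ) = (Fintype.card V : ℝ) := by
    exact_mod_cast h2
  rw [h1, ← sum_filter, sum_const, nsmul_eq_mul] at this
  calc _ = (1 - ((s - t : ℕ) : ℝ) * q) * ((univ.filter (fun v => ¬ c v < s - t)).card : ℝ) +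
        ((univ.filter (fun v => c v < s - t)).card : ℝ) * (1 - (1 - q) ^ t) := by
          rw [← h3]
          ring
    _ ≤ _ := this

/-- Colourable graphs. -/
theorem colorable_bound (G : SimpleGraph V) (m t : ℕ) (hm : 1 ≤ m) (hG : G.Colorable m) :
    (1 - (1 - 1 / (m : ℝ)) ^ t) * (Fintype.card V : ℝ) ≤ (val G (fun _ => t) : ℝ) := by
  obtain ⟨C⟩ := hG
  have hm' : (1 : ℝ) ≤ (m : ℝ) := by exact_mod_cast hm
  have hm0 : (m : ℝ) * (1 / (m : ℝ)) = 1 := by
    field_simp
  have hz : ∀ v, (fun v => if (C v : ℕ) < m then 0 else (fun _ : V => t) v) v = 0 := by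
    intro v
    simp [(C v).isLt]
  have := val_mixed G m (fun v => (C v : ℕ)) (by
    intro v w hvw _ hadj
    exact C.valid hadj (Fin.ext hvw)) (1 / (m : ℝ)) (by positivity) (by rw [hm0]; simp)
    _ (fun _ => t) le_rfl (Full.zero G hz)
  have h1 : sup (fun v => if (C v : ℕ) < m then 0 else t) = ∅ := by
    ext v
    rw [mem_sup]
    simp [(C v).isLt]
  rw [h1, card_empty] at this
  have h2 : ∀ v : V, (if (C v : ℕ) < m then 1 - (1 - 1 / (m : ℝ)) ^ t else 0) =
      1 - (1 - 1 / (m : ℝ)) ^ t := by
    intro v
    rw [if_pos (C v).isLt]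
  rw [sum_congr rfl (fun v _ => h2 v), sum_const, nsmul_eq_mul, card_univ] at this
  linarith

theorem one_sub_pow_ge (x : ℝ) (h0 : 0 ≤ x) (h1 : x ≤ 1) (t : ℕ) :
    (t : ℝ) * x ^ t * (1 - x) ≤ 1 - x ^ t := by
  induction t with
  | zero => simp
  | succ t ih =>
    have h2 : (0 : ℝ) ≤ x ^ t := by positivity
    have h3 : (0 : ℝ) ≤ (t : ℝ) := Nat.cast_nonneg t
    have h4 : x ^ t ≤ 1 := pow_le_one₀ h0 h1
    rw [pow_succ]
    push_cast
    have h5 : 0 ≤ (t : ℝ) * x ^ t * (1 - x) * (1 - x) :=
      mul_nonneg (mul_nonneg (mul_nonneg h3 h2) (by linarith)) (by linarith)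
    have h6 : 0 ≤ x ^ t * (1 - x) * (1 - x) :=
      mul_nonneg (mul_nonneg h2 (by linarith)) (by linarith)
    nlinarith

theorem ratio_mono (x : ℝ) (h0 : 0 ≤ x) (h1 : x ≤ 1) (t : ℕ) : ∀ T : ℕ, t ≤ T →
    (t : ℝ) * (1 - x ^ T) ≤ (T : ℝ) * (1 - x ^ t) := by
  intro T hT
  induction T, hT using Nat.le_induction with
  | base => exact le_rfl
  | succ T hT ih =>
    have h2 := one_sub_pow_ge x h0 h1 t
    have h3 : x ^ T ≤ x ^ t := pow_le_pow_of_le_one h0 h1 hT
    have h4 : (0 : ℝ) ≤ (t : ℝ) := Nat.cast_nonneg t
    have h5 : (t : ℝ) * x ^ T * (1 - x) ≤ (t : ℝ) * x ^ t * (1 - x) := by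
      apply mul_le_mul_of_nonneg_right _ (by linarith)
      exact mul_le_mul_of_nonneg_left h3 h4
    rw [pow_succ]
    push_cast
    nlinarith

end Pool.Agent.Helper34.Paint
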